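import Pool.Agent.Helper71.EKC.Rf

/-!
# Project CK: positivity of integer polynomials in two variables on a region

`bx F G n c1 h1 c2 h2`: subdivision of the box `|x - c1| ≤ h1`, `|y - c2| ≤ h2`; the box is left
when the Taylor expansion of `F` at the centre is dominated by its constant term, or when one of
the polynomials of `G` is negative on the box.
-/

set_option autoImplicit false

namespace Pool.Agent.Helper20.CK

open Pool.EK71

/-- multiplication by `c + h v` -/
def li1 (c h : ℤ) (q : List ℤ) : List ℤ := ad1 (sm1 c q) (0 :: sm1 h q)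

/-- `p (c + h v)` -/
def ty1 (c h : ℤ) : List ℤ → List ℤ
  | [] => []
  | a :: p => ad1 [a] (li1 c h (ty1 c h p))

/-- multiplication by `c + h u` -/
def li2 (c h : ℤ) (Q : BP) : BP := ad2 (sm2 c Q) ([] :: sm2 h Q)

/-- `P (c + h u, c' + h' v)` -/
def ty2 (c h c' h' : ℤ) : BP → BP
  | [] => []
  | r :: P => ad2 [ty1 c' h' r] (li2 c h (ty2 c h c' h' P))

theorem ev1_ty (v : ℝ) (c h : ℤ) (p : List ℤ) : ev1 v (ty1 c h p) = ev1 (c + h * v) p := by
  induction p with
  | nil => rfl
  | cons a p ih =>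
    simp only [ty1, li1, ev1_ad, ev1_sm, ev1, ih, Int.cast_zero]
    ring

theorem ev2_ty (u v : ℝ) (c h c' h' : ℤ) (P : BP) :
    ev2 u v (ty2 c h c' h' P) = ev2 (c + h * u) (c' + h' * v) P := by
  induction P with
  | nil => rfl
  | cons r P ih =>
    simp only [ty2, li2, ev2_ad, ev2_sm, ev2, ev1, ih, ev1_ty]
    ring

/-- sum of the absolute values -/
def sa1 : List ℤ → ℕ
  | [] => 0
  | a :: p => Nat.add (Int.natAbs a) (sa1 p)

def sa2 : BP → ℕ
  | [] => 0
  | r :: P => Nat.add (sa1 r) (sa2 P)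

theorem natAbs_cast_abs (a : ℤ) : ((Int.natAbs a : ℕ) : ℝ) = |(a : ℝ)| := by
  rw [← Int.cast_abs, Int.abs_eq_natAbs, Int.cast_natCast]

theorem nadd_cast (a b : ℕ) : ((Nat.add a b : ℕ) : ℝ) = a + b := by
  show (((a + b : ℕ)) : ℝ) = _
  push_cast
  ring

theorem ev1_le {v : ℝ} (hv : |v| ≤ 1) (p : List ℤ) : |ev1 v p| ≤ (sa1 p : ℝ) := by
  induction p with
  | nil => simp [ev1, sa1]
  | cons a p ih =>
    simp only [ev1, sa1]
    rw [nadd_cast, natAbs_cast_abs]
    refine (abs_add_le _ _).trans ?_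
    rw [abs_mul]
    have := mul_le_mul hv ih (abs_nonneg _) zero_le_one
    linarith

theorem ev2_le {u v : ℝ} (hu : |u| ≤ 1) (hv : |v| ≤ 1) (P : BP) :
    |ev2 u v P| ≤ (sa2 P : ℝ) := by
  induction P with
  | nil => simp [ev2, sa2]
  | cons r P ih =>
    simp only [ev2, sa2]
    rw [nadd_cast]
    refine (abs_add_le _ _).trans ?_
    rw [abs_mul]
    have := mul_le_mul hu ih (abs_nonneg _) zero_le_one
    have := ev1_le hv r
    linarith

/-- the constant term is larger than all the others together -/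
def dom : BP → Bool
  | (Int.ofNat n :: r) :: P => Nat.ble (Nat.succ (Nat.add (sa1 r) (sa2 P))) n
  | _ => false

/-- minus the constant term is larger than all the others together -/
def domn : BP → Bool
  | (Int.negSucc n :: r) :: P => Nat.ble (Nat.add (sa1 r) (sa2 P)) n
  | _ => false

theorem dom_pos {P : BP} (h : dom P = true) {u v : ℝ} (hu : |u| ≤ 1) (hv : |v| ≤ 1) :
    0 < ev2 u v P := by
  match P, h with
  | (Int.ofNat n :: r) :: P, h =>
    simp only [dom, Nat.ble_eq] at h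
    have h1 : ((Nat.add (sa1 r) (sa2 P) : ℕ) : ℝ) + 1 ≤ n := by exact_mod_cast h
    rw [nadd_cast] at h1
    simp only [ev2, ev1]
    have e : ((Int.ofNat n : ℤ) : ℝ) = n := by simp
    rw [e]
    have k1 := abs_le.1 (ev1_le hv r)
    have k2 := abs_le.1 (ev2_le hu hv P)
    have k3 : |v * ev1 v r| ≤ sa1 r := by
      rw [abs_mul]
      have := mul_le_mul hv (ev1_le hv r) (abs_nonneg _) zero_le_one
      linarith
    have k4 : |u * ev2 u v P| ≤ sa2 P := by
      rw [abs_mul]
      have := mul_le_mul hu (ev2_le hu hv P) (abs_nonneg _) zero_le_one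
      linarith
    have k5 := (abs_le.1 k3).1
    have k6 := (abs_le.1 k4).1
    linarith

theorem domn_neg {P : BP} (h : domn P = true) {u v : ℝ} (hu : |u| ≤ 1) (hv : |v| ≤ 1) :
    ev2 u v P < 0 := by
  match P, h with
  | (Int.negSucc n :: r) :: P, h =>
    simp only [domn, Nat.ble_eq] at h
    have h1 : ((Nat.add (sa1 r) (sa2 P) : ℕ) : ℝ) ≤ n := by exact_mod_cast h
    rw [nadd_cast] at h1
    simp only [ev2, ev1]
    have e : ((Int.negSucc n : ℤ) : ℝ) = - (n + 1) := by
      rw [Int.cast_negSucc]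
      push_cast
      ring
    rw [e]
    have k3 : |v * ev1 v r| ≤ sa1 r := by
      rw [abs_mul]
      have := mul_le_mul hv (ev1_le hv r) (abs_nonneg _) zero_le_one
      linarith
    have k4 : |u * ev2 u v P| ≤ sa2 P := by
      rw [abs_mul]
      have := mul_le_mul hu (ev2_le hu hv P) (abs_nonneg _) zero_le_one
      linarith
    have k5 := (abs_le.1 k3).2
    have k6 := (abs_le.1 k4).2
    linarith

/-- `true`: the first variable matters more -/
def dirx : BP → Bool
  | (_ :: r) :: P => Nat.ble (sa1 r) (sa2 P)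
  | _ => true

def negs (c1 h1 c2 h2 : ℤ) : List BP → Bool
  | [] => false
  | g :: G => or (domn (ty2 c1 h1 c2 h2 g)) (negs c1 h1 c2 h2 G)

/-- half of a width, rounded up -/
def hf (h : ℕ) : ℕ := Nat.div (Nat.succ h) 2

theorem hf_le (h : ℕ) : h ≤ 2 * hf h := by
  unfold hf
  have : Nat.div (Nat.succ h) 2 = (h + 1) / 2 := rfl
  rw [this]
  omega

/-- the subdivision -/
def bx (F : BP) (G : List BP) : ℕ → ℤ → ℕ → ℤ → ℕ → Bool
  | 0, _, _, _, _ => false
  | n + 1, c1, h1, c2, h2 =>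
    or (dom (ty2 c1 (Int.ofNat h1) c2 (Int.ofNat h2) F))
      (or (negs c1 (Int.ofNat h1) c2 (Int.ofNat h2) G)
        (cond (dirx (ty2 c1 (Int.ofNat h1) c2 (Int.ofNat h2) F))
          (and (bx F G n (Int.sub c1 (Int.ofNat (hf h1))) (hf h1) c2 h2)
            (bx F G n (Int.add c1 (Int.ofNat (hf h1))) (hf h1) c2 h2))
          (and (bx F G n c1 h1 (Int.sub c2 (Int.ofNat (hf h2))) (hf h2))
            (bx F G n c1 h1 (Int.add c2 (Int.ofNat (hf h2))) (hf h2)))))

theorem exists_unit {x : ℝ} {c : ℤ} {h : ℕ} (hx : |x - c| ≤ h) :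
    ∃ u : ℝ, |u| ≤ 1 ∧ x = c + ((Int.ofNat h : ℤ) : ℝ) * u := by
  have e : ((Int.ofNat h : ℤ) : ℝ) = h := by simp
  rw [e]
  rcases Nat.eq_zero_or_pos h with h0 | h0
  · refine ⟨0, by norm_num, ?_⟩
    rw [h0, Nat.cast_zero] at hx
    have := abs_eq_zero.1 (le_antisymm hx (abs_nonneg _))
    linarith
  · have h1 : (0:ℝ) < h := by exact_mod_cast h0
    refine ⟨(x - c) / h, ?_, by field_simp; ring⟩
    rw [abs_div, abs_of_pos h1, div_le_one h1]
    exact hx

theorem split_box {x : ℝ} {c : ℤ} {h : ℕ} (hx : |x - c| ≤ h) :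
    |x - ((Int.sub c (Int.ofNat (hf h)) : ℤ) : ℝ)| ≤ hf h ∨
      |x - ((Int.add c (Int.ofNat (hf h)) : ℤ) : ℝ)| ≤ hf h := by
  have e1 : ((Int.sub c (Int.ofNat (hf h)) : ℤ) : ℝ) = c - hf h := by
    show (((c - (hf h : ℤ) : ℤ)) : ℝ) = _
    push_cast
    ring
  have e2 : ((Int.add c (Int.ofNat (hf h)) : ℤ) : ℝ) = c + hf h := by
    show (((c + (hf h : ℤ) : ℤ)) : ℝ) = _
    push_cast
    ring
  rw [e1, e2]
  have h1 : (h : ℝ) ≤ 2 * hf h := by exact_mod_cast hf_le h
  obtain ⟨k1, k2⟩ := abs_le.1 hx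
  rcases le_total x c with k | k
  · left
    rw [abs_le]
    constructor <;> linarith
  · right
    rw [abs_le]
    constructor <;> linarith

theorem negs_false {c1 c2 : ℤ} {h1 h2 : ℕ} {x y : ℝ} (hx : |x - c1| ≤ h1) (hy : |y - c2| ≤ h2)
    {G : List BP} (hG : ∀ g ∈ G, 0 ≤ ev2 x y g)
    (h : negs c1 (Int.ofNat h1) c2 (Int.ofNat h2) G = true) : False := by
  induction G with
  | nil => simp [negs] at h
  | cons g G ih =>
    simp only [negs, Bool.or_eq_true] at h
    rcases h with h | h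
    · obtain ⟨u, hu, eu⟩ := exists_unit hx
      obtain ⟨v, hv, ev⟩ := exists_unit hy
      have h3 := domn_neg h hu hv
      rw [ev2_ty, ← eu, ← ev] at h3
      have := hG g List.mem_cons_self
      linarith
    · exact ih (fun g hg => hG g (List.mem_cons_of_mem _ hg)) h

/-- **the checker is correct** -/
theorem bx_sound {F : BP} {G : List BP} {x y : ℝ} (hG : ∀ g ∈ G, 0 ≤ ev2 x y g) :
    ∀ (n : ℕ) (c1 : ℤ) (h1 : ℕ) (c2 : ℤ) (h2 : ℕ), bx F G n c1 h1 c2 h2 = true →
      |x - c1| ≤ h1 → |y - c2| ≤ h2 → 0 < ev2 x y F := by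
  intro n
  induction n with
  | zero => intro c1 h1 c2 h2 h; simp [bx] at h
  | succ n ih =>
    intro c1 h1 c2 h2 h hx hy
    rw [bx, Bool.or_eq_true, Bool.or_eq_true] at h
    rcases h with h | h | h
    · obtain ⟨u, hu, eu⟩ := exists_unit hx
      obtain ⟨v, hv, ev⟩ := exists_unit hy
      have h3 := dom_pos h hu hv
      rwa [ev2_ty, ← eu, ← ev] at h3
    · exact (negs_false hx hy hG h).elim
    · cases hd : dirx (ty2 c1 (Int.ofNat h1) c2 (Int.ofNat h2) F)
      · rw [hd, cond_false, Bool.and_eq_true] at h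
        rcases split_box hy with k | k
        · exact ih _ _ _ _ h.1 hx k
        · exact ih _ _ _ _ h.2 hx k
      · rw [hd, cond_true, Bool.and_eq_true] at h
        rcases split_box hx with k | k
        · exact ih _ _ _ _ h.1 k hy
        · exact ih _ _ _ _ h.2 k hy

end Pool.Agent.Helper20.CK
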