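import Pool.Agent.Helper20.CK.RingM
import Pool.Agent.Helper20.EK7.FieldH

/-!
# Project CK: the loss of the general one-jet field in seven variables
-/

set_option autoImplicit false

open Complex Metric Set
open scoped Real ComplexConjugate

namespace Pool.Agent.Helper20.CK

open Pool.Sos71 Pool.EK71 Pool.Agent.Helper52.EK Pool.Agent.Helper69.EK7 Pool.Agent.Helper20.EK7
open Pool.Agent.Helper69.EK3 (eA eB eo)

/-- `N W = Gm ω + sg l Al σ` -/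
def cW7 (Gm Al sg : ℤ) : CE := CE.add (CE.sc Gm cOm) (CE.rm (Ex.sc (sg * Al) (Ex.va 0)) cSg)

/-- the loss times `N²`, weight 4, seven variables -/
def eT7 (N Gm C0 Al Be sg : ℤ) : Ex :=
  Ex.add (Ex.sc 16 (Ex.mul (Ex.pow (Ex.va 2) 2) (cSq (cW7 Gm Al sg))))
    (Ex.add (Ex.sc 8 (Ex.mul (Ex.mul (eKK C0 Al Be sg) (Ex.va 2))
        (Ex.add (Ex.mul eA (cW7 Gm Al sg).r) (Ex.sc (-1) (Ex.mul eB (cW7 Gm Al sg).i)))))
      (Ex.add (Ex.sc (8 * (Gm - N)) (Ex.mul (Ex.va 2)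
          (Ex.add (Ex.mul eA (cW7 Gm Al sg).r) (Ex.mul eB (cW7 Gm Al sg).i))))
        (Ex.add (Ex.mul (Ex.add (Ex.pow (eKK C0 Al Be sg) 2) (Ex.lit ((Gm - N) ^ 2)))
            (Ex.pow eo 2))
          (Ex.sc (2 * (Gm - N)) (Ex.mul (eKK C0 Al Be sg)
            (Ex.add (Ex.pow eA 2) (Ex.sc (-1) (Ex.pow eB 2))))))))

theorem Dj_zero (d : ℝ) (m t : ℂ) : Dj 0 0 d m t = 0 := by
  unfold Dj
  simp

theorem vv_zero (d S C : ℝ) (X P R : ℂ) : vv 0 0 d S C X P R = 0 := by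
  unfold vv
  simp

variable {N Gm C0 Al Be sg : ℤ} {gam c0 a b : ℝ} (l η : ℝ) (X Y : ℂ)

theorem re9_eT7_eq (Z : ℂ) : re9 (px9 l η X Y Z 0) (eT7 N Gm C0 Al Be sg) =
    re9 (px9 l η X Y Z 0) (eT9 N Gm C0 Al Be sg) := by
  have h9 : re9 (px9 l η X Y Z 0) (Ex.va 9) = 0 := rfl
  have h10 : re9 (px9 l η X Y Z 0) (Ex.va 10) = 0 := rfl
  have hr : re9 (px9 l η X Y Z 0) (cWW N Gm Al sg).r = re9 (px9 l η X Y Z 0) (cW7 Gm Al sg).r := by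
    have e1 : re9 (px9 l η X Y Z 0) (cWW N Gm Al sg).r = re9 (px9 l η X Y Z 0) (CE.sc Gm cOm).r +
      ((N : ℝ) * re9 (px9 l η X Y Z 0) (Ex.va 9) +
        re9 (px9 l η X Y Z 0) (CE.rm (Ex.sc (sg * Al) (Ex.va 0)) cSg).r) := rfl
    have e2 : re9 (px9 l η X Y Z 0) (cW7 Gm Al sg).r = re9 (px9 l η X Y Z 0) (CE.sc Gm cOm).r +
        re9 (px9 l η X Y Z 0) (CE.rm (Ex.sc (sg * Al) (Ex.va 0)) cSg).r := rfl
    rw [e1, e2, h9]
    ring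
  have hi : re9 (px9 l η X Y Z 0) (cWW N Gm Al sg).i = re9 (px9 l η X Y Z 0) (cW7 Gm Al sg).i := by
    have e1 : re9 (px9 l η X Y Z 0) (cWW N Gm Al sg).i = re9 (px9 l η X Y Z 0) (CE.sc Gm cOm).i +
      ((N : ℝ) * re9 (px9 l η X Y Z 0) (Ex.va 10) +
        re9 (px9 l η X Y Z 0) (CE.rm (Ex.sc (sg * Al) (Ex.va 0)) cSg).i) := rfl
    have e2 : re9 (px9 l η X Y Z 0) (cW7 Gm Al sg).i = re9 (px9 l η X Y Z 0) (CE.sc Gm cOm).i +
        re9 (px9 l η X Y Z 0) (CE.rm (Ex.sc (sg * Al) (Ex.va 0)) cSg).i := rfl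
    rw [e1, e2, h10]
    ring
  simp only [eT7, eT9, cSq, re9] at hr hi ⊢
  rw [hr, hi]

theorem low_eT7 : low (eT7 N Gm C0 Al Be sg) = true := rfl

/-- **the loss** of `gam m + c0 + sg l (a m + b)` in seven variables -/
theorem re_eT7 (h1 : (Gm : ℝ) = N * gam) (h2 : (C0 : ℝ) = N * c0) (h3 : (Al : ℝ) = N * a)
    (h4 : (Be : ℝ) = N * b) (t : ℂ) :
    (eT7 N Gm C0 Al Be sg).re (Pool.Agent.Helper69.EK6.px l η X Y) =
      (N : ℝ) ^ 2 * ‖Fv gam c0 a b 0 0 1 (sg * l) (mX X Y (Real.sin η) (Real.cos η)) t -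
        e0 (Real.sin η) (Real.cos η)‖ ^ 2 := by
  have k1 := re9_low (px9 l η X Y 0 0) (eT7 N Gm C0 Al Be sg) low_eT7
  have k2 : (px9 l η X Y 0 0).t = Pool.Agent.Helper69.EK6.px l η X Y := rfl
  rw [k2] at k1
  rw [← k1, re9_eT7_eq]
  have k3 := re9_eT9 (N := N) (Gm := Gm) (C0 := C0) (Al := Al) (Be := Be) (sg := sg)
    (g0 := 0) (g1 := 0) (d := 1) l η X Y 0 h1 h2 h3 h4
  have k4 : vpt 0 0 1 η X Y 0 = 0 := vv_zero _ _ _ _ _ _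
  rw [k4] at k3
  rw [k3]
  have k5 : ∀ t : ℂ, Fv gam c0 a b 0 0 1 (sg * l) (mX X Y (Real.sin η) (Real.cos η)) t =
      gam * mX X Y (Real.sin η) (Real.cos η) + c0 + ((sg * l : ℝ) : ℂ) *
        (a * mX X Y (Real.sin η) (Real.cos η) + b) := by
    intro t
    unfold Fv
    rw [Dj_zero, add_zero]
  rw [k5, k5]

end Pool.Agent.Helper20.CK
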