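import Pool.Agent.Helper71.CK.DatG
import Pool.Agent.Helper20.CK.Ring7
set_option autoImplicit false
open Complex MeasureTheory Metric Set
open scoped Real ComplexConjugate

/-!
# Project CK: data of a certificate with the field `γ m + c₀ + l (a m + b)`

`DatF = { g : DatG, N mu Gm C0 Al Be Al' Be' }`, `M₀ = mu N²`, `Gm = N γ`, `C0 = N c₀`, ...;
the numbers `Ma, .., Mbb` of `fi`, `fo` are not used. Null Lagrangians, centre: those of `g`.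
-/

namespace Pool.Agent.Helper20.CK

open Pool.Sos71
open Pool.EK71 Pool.Agent.Helper52.EK Pool.Agent.Helper2.EK
open Pool.Agent.Helper69.EK3 hiding qX qY qL Rr c1_Rr c2_Rr Rr_le Dn Dn_ev Rr_conj_even Rr_conj_odd Rs dEta_conj px px_o csE_re EHM mulE eTT eCon Dat.NT Dat.KT px_Con px_TT
open Pool.Agent.Helper69.EK5 (DQ Dd Dd_pos Dn Dn_ev)
open Pool.Agent.Helper69.EK6 (px px_o eCon px_Con Side)
open Pool.Agent.Helper69.EK6.Dat (tN_re)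
open Pool.Agent.Helper69.EK7 (Grp EGr GLip2)
open Pool.Agent.Helper20.EK7
open Pool.Agent.Helper71.CK
open Pool.Agent.Helper84.CK

/-- one side of the data agrees with real parameters -/
structure SideF (f : Sd) (sg : ℤ) (p0 p1 p2 : ℝ) : Prop where
  sg : f.sg = sg
  r : 0 < f.r
  r0 : (f.r0 : ℝ) = f.r * p0
  r1 : (f.r1 : ℝ) = f.r * p1
  r2 : (f.r2 : ℝ) = f.r * p2

theorem SideF.con {f : Sd} {sg : ℤ} {p0 p1 p2 : ℝ} (h : SideF f sg p0 p1 p2) {X Y : ℂ}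
    {η l : ℝ} (hl : l * rF p0 p1 p2 (mX X Y (Real.sin η) (Real.cos η)) =
      sg * (1 - ‖mX X Y (Real.sin η) (Real.cos η)‖ ^ 2)) (hs : (sg : ℝ) ^ 2 = 1) :
    (eCon f).re (px l η X Y) = 0 := by
  rw [px_Con, h.r0, h.r1, h.r2, h.sg]
  unfold rF at hl
  linear_combination (f.r * (sg : ℝ)) * hl + (f.r * (1 -
    ‖mX X Y (Real.sin η) (Real.cos η)‖ ^ 2)) * hs

/-- the conditions on a field `G` which enter the pointwise inequality -/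
structure FldF (G : ℂ → ℂ) (gam c0 ka kb p0 p1 p2 la lb q0 q1 q2 : ℝ) : Prop where
  gin : ∀ m : ℂ, ‖m‖ ≤ 1 → ∀ e : ℂ, ‖e‖ = 1 →
    ‖G m - e‖ ^ 2 ≤ ‖Fd gam c0 0 0 1 ka kb p0 p1 p2 m 0 - e‖ ^ 2
  gout : ∀ m : ℂ, 1 < ‖m‖ → ∀ e : ℂ, ‖e‖ = 1 →
    ‖G m - e‖ ^ 2 ≤ ‖Fd gam c0 0 0 1 la lb q0 q1 q2 m 0 - e‖ ^ 2

/-- the field of the data -/
noncomputable def GF0 (gam c0 ka kb p0 p1 p2 la lb q0 q1 q2 : ℝ) (m : ℂ) : ℂ :=
  GF gam c0 0 0 1 ka kb p0 p1 p2 la lb q0 q1 q2 m 0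

theorem fld_GF0 (gam c0 ka kb p0 p1 p2 la lb q0 q1 q2 : ℝ) :
    FldF (GF0 gam c0 ka kb p0 p1 p2 la lb q0 q1 q2) gam c0 ka kb p0 p1 p2 la lb q0 q1 q2 :=
  ⟨fun _ hm _ he => GF_in hm (by rw [norm_zero]; norm_num) he,
    fun _ hm _ he => GF_out hm.le (by rw [norm_zero]; norm_num) he⟩

theorem GF0_conj (gam c0 ka kb p0 p1 p2 la lb q0 q1 q2 : ℝ) (m : ℂ) :
    GF0 gam c0 ka kb p0 p1 p2 la lb q0 q1 q2 (conj m) =
      conj (GF0 gam c0 ka kb p0 p1 p2 la lb q0 q1 q2 m) := by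
  unfold GF0
  rw [← GF_conj, map_zero]

/-- the field is admissible -/
theorem GF0_glip (gam c0 ka kb p0 p1 p2 la lb q0 q1 q2 : ℝ) (h : InL p0 p1 p2)
    (h' : OutD q0 q1 q2) : ∃ L : ℝ, GLip (GF0 gam c0 ka kb p0 p1 p2 la lb q0 q1 q2) L := by
  obtain ⟨L, hL⟩ := GF_glip gam c0 0 0 1 ka kb p0 p1 p2 la lb q0 q1 q2 one_pos h h'
  refine ⟨L, fun m => hL.le_one m 0, fun m m' => hL.lip m m' 0, fun u m hu => ?_⟩
  have h1 := hL.rot u m 0 hu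
  rw [mul_zero] at h1
  exact h1

theorem outD_outL {q0 q1 q2 : ℝ} (h : OutD q0 q1 q2) : OutL (q1 + q2) q0 q1 q2 :=
  ⟨rfl, h.pos, h.pos'⟩

structure DatF where
  g : DatG
  N : ℤ
  mu : ℤ
  Gm : ℤ
  C0 : ℤ
  Al : ℤ
  Be : ℤ
  Al' : ℤ
  Be' : ℤ

namespace DatF
variable (e : DatF)

/-- the part of a target without multiplier and groups -/
def tL (f : Sd) (Al Be : ℤ) : Ex :=
  Ex.add e.g.s.d.c.tN (Ex.add
    (Ex.mul (Ex.mul (Ex.pow eo (e.g.s.d.c.h - 2))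
      (Ex.bp (sm2 (Int.neg e.mu) (Dn e.g.s.d.c.a e.g.s.d.c.K)))) (eT7 e.N e.Gm e.C0 Al Be f.sg))
    (Ex.mul (e.g.s.d.c.tMul f) (eCon f)))

/-- the target of one side -/
def tSide (f : Sd) (L : List (ℕ × ℕ × ℤ)) (Al Be : ℤ) : Ex :=
  sumE (EGr e.g.s.d.c.a e.g.s.d.c.K) (Ex.add (e.tL f Al Be)
    (sumE (EMt e.g.s.tn e.g.s.td e.g.s.d.c.a e.g.s.d.c.K e.g.s.d.c.h) e.g.s.d.tX L)) e.g.GR

/-- the target inside -/
def tIn : Ex := e.tSide e.g.s.d.c.fi e.g.s.d.MI e.Al e.Be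
/-- the target outside -/
def tOut : Ex := e.tSide e.g.s.d.c.fo e.g.s.d.MO e.Al' e.Be'

variable {e}

theorem tSide_re (w : e.g.Wf) {f : Sd} {L : List (ℕ × ℕ × ℤ)} (hL : ∀ t ∈ L, t.2.1 ≤ 2)
    {X Y : ℂ} (hX : X ≠ 0) (l η : ℝ) (h : (eCon f).re (px l η X Y) = 0) (Al Be : ℤ) :
    (e.tSide f L Al Be).re (px l η X Y) = Dd e.g.s.d.c.a X.re X.im ^ e.g.s.d.c.K *
      (e.g.NT X Y η + (e.g.s.d.c.lam * ‖X - 1‖ ^ 2 + e.g.s.d.c.a2 * ((X.re - 1) ^ 2 -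
        X.im ^ 2)) + (e.g.s.d.kb * (1 - X.re) + e.g.s.d.del) +
        (MS L l (mX X Y (Real.sin η) (Real.cos η)) * e0 (Real.sin η) (Real.cos η) *
          (e.g.s.td * (X ^ 2 - 1) - e.g.s.tn)).re -
        e.mu * (eT7 e.N e.Gm e.C0 Al Be f.sg).re (px l η X Y)) := by
  have e1 : ∀ A B : Ex, (Ex.add A B).re (px l η X Y) = A.re (px l η X Y) + B.re (px l η X Y) :=
    fun _ _ => rfl
  have e2 : (e.tL f Al Be).re (px l η X Y) = e.g.s.d.c.tN.re (px l η X Y) +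
      (((eo.re (px l η X Y)) ^ (e.g.s.d.c.h - 2) *
        ev2 (X.re - 1) X.im (sm2 (Int.neg e.mu) (Dn e.g.s.d.c.a e.g.s.d.c.K))) *
        (eT7 e.N e.Gm e.C0 Al Be f.sg).re (px l η X Y) +
          (e.g.s.d.c.tMul f).re (px l η X Y) * (eCon f).re (px l η X Y)) := rfl
  have e3 : ((Int.neg e.mu : ℤ) : ℝ) = - e.mu := by
    show (((- e.mu : ℤ)) : ℝ) = _
    push_cast
    ring
  unfold tSide
  rw [sumE_re, e1, sumE_re, DatM.tX_re, DatT.mt_re hL, e2, h, tN_re w.d.c hX, px_o, one_pow,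
    ev2_sm, Dn_ev, e3,
    map_sum_congr e.g.GR fun G hG => EGr_low e.g.s.d.c.a (w.gr G hG).n (w.gr G hG).e
      (w.gr G hG).k l η hX Y, map_sum_mul]
  unfold DatG.NT DatG.NGR DatM.NT
  ring

/-- conditions on the data -/
structure Ok (e : DatF) (gam c0 ka kb p0 p1 p2 la lb q0 q1 q2 : ℝ) (Ln Ld Ln' Ld' : ℤ) :
    Prop where
  wf : e.g.wf = true
  N0 : e.N ≠ 0
  mu0 : 0 < e.mu
  M0 : e.g.s.d.c.M = e.mu * e.N ^ 2
  td0 : 0 < e.g.s.td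
  lam0 : 0 ≤ e.g.s.d.c.lam
  fi : SideF e.g.s.d.c.fi 1 p0 p1 p2
  fo : SideF e.g.s.d.c.fo (-1) q0 q1 q2
  eg : (e.Gm : ℝ) = e.N * gam
  ec : (e.C0 : ℝ) = e.N * c0
  ea : (e.Al : ℝ) = e.N * ka
  eb : (e.Be : ℝ) = e.N * kb
  ea' : (e.Al' : ℝ) = e.N * la
  eb' : (e.Be' : ℝ) = e.N * lb
  Ld0 : 0 < Ld
  Ld0' : 0 < Ld'
  inL : InL p0 p1 p2
  outD : OutD q0 q1 q2
  lIn : LIn p0 p1 p2 (Ln / Ld)
  lOut : LOut q0 q1 q2 (Ln' / Ld')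

variable {gam c0 ka kb p0 p1 p2 la lb q0 q1 q2 : ℝ} {Ln Ld Ln' Ld' : ℤ}

theorem Ok.Mpos (o : e.Ok gam c0 ka kb p0 p1 p2 la lb q0 q1 q2 Ln Ld Ln' Ld') :
    0 < e.g.s.d.c.M := by
  rw [o.M0]
  have := o.mu0
  have := o.N0
  positivity

/-- **the pointwise inequality**, general one-jet field -/
theorem Ok.point (o : e.Ok gam c0 ka kb p0 p1 p2 la lb q0 q1 q2 Ln Ld Ln' Ld')
    (hIn : Side e.g.s.d.c.K Ln Ld e.tIn) (hOut : Side e.g.s.d.c.K Ln' Ld' e.tOut) :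
    ∃ B : ℝ, 0 ≤ B ∧
    ∀ G : ℂ → ℂ, FldF G gam c0 ka kb p0 p1 p2 la lb q0 q1 q2 →
    ∀ X Y : ℂ, X ≠ 0 → ∀ η ∈ Icc (0:ℝ) (π / 2), ∃ l1 l2 : ℝ, 0 ≤ l1 ∧ l1 ≤ B ∧ 0 ≤ l2 ∧ l2 ≤ B ∧
    e.g.s.d.c.M * ‖G (mX X Y (Real.sin η) (Real.cos η)) - e0 (Real.sin η) (Real.cos η)‖ ^ 2 +
      (l1 * (16 - ‖dA 1 X Y (Real.sin η) (Real.cos η)‖ ^ 2) +
        l2 * (16 - ‖dA (-1) X Y (Real.sin η) (Real.cos η)‖ ^ 2)) ≤
      e.g.NT X Y η + (e.g.s.d.c.lam * ‖X - 1‖ ^ 2 + e.g.s.d.c.a2 * ((X.re - 1) ^ 2 -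
        X.im ^ 2)) + (e.g.s.d.kb * (1 - X.re) + e.g.s.d.del) +
        e.g.s.d.c.M * (e.g.s.Mu p0 p1 p2 q0 q1 q2 (mX X Y (Real.sin η) (Real.cos η)) *
          e0 (Real.sin η) (Real.cos η) * (X ^ 2 - (1 + e.g.s.tn / e.g.s.td))).re := by
  obtain ⟨B1, hB1, k1⟩ := Pool.Agent.Helper69.EK6.Dat.Side.apply hIn
  obtain ⟨B2, hB2, k2⟩ := Pool.Agent.Helper69.EK6.Dat.Side.apply hOut
  have w := DatG.wf_iff e.g o.wf
  refine ⟨max B1 B2, le_max_of_le_left hB1, fun G hG X Y hX η hη => ?_⟩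
  have hM : (0:ℝ) < e.g.s.d.c.M := by exact_mod_cast o.Mpos
  have hMc : (e.g.s.d.c.M : ℂ) ≠ 0 := by exact_mod_cast hM.ne'
  have htd : (e.g.s.td : ℂ) ≠ 0 := by exact_mod_cast o.td0.ne'
  have hD : 0 < Dd e.g.s.d.c.a X.re X.im ^ e.g.s.d.c.K := pow_pos (Dd_pos _ _ _) _
  have he : ‖e0 (Real.sin η) (Real.cos η)‖ = 1 := norm_e0 η
  have hMr : (e.g.s.d.c.M : ℝ) = e.mu * e.N ^ 2 := by
    rw [o.M0]
    push_cast
    ring
  -- the multiplier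
  have hmul : ∀ z : ℂ, (e.g.s.d.c.M : ℝ) * (e.g.s.td * z / (e.g.s.d.c.M : ℂ) *
      e0 (Real.sin η) (Real.cos η) * (X ^ 2 - (1 + e.g.s.tn / e.g.s.td))).re =
      (z * e0 (Real.sin η) (Real.cos η) * (e.g.s.td * (X ^ 2 - 1) - e.g.s.tn)).re := by
    intro z
    rw [← re_ofReal_mul]
    congr 1
    push_cast
    field_simp
    ring
  obtain ⟨m, hm⟩ : ∃ m : ℂ, m = mX X Y (Real.sin η) (Real.cos η) := ⟨_, rfl⟩
  by_cases h1 : ‖m‖ ≤ 1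
  · obtain ⟨d1, d2, d3⟩ := o.lIn.l_bd o.inL h1
    obtain ⟨l, hl⟩ : ∃ l : ℝ, l = (1 - ‖m‖ ^ 2) / rF p0 p1 p2 m := ⟨_, rfl⟩
    have hL : (0:ℝ) < Ld := by exact_mod_cast o.Ld0
    rw [← hl] at d2 d3
    have hc : (eCon e.g.s.d.c.fi).re (px l η X Y) = 0 := by
      refine o.fi.con ?_ (by norm_num)
      rw [← hm, hl, div_mul_cancel₀ _ d1.ne']
      push_cast
      ring
    obtain ⟨l1, l2, a1, a2, a3, a4, h5⟩ := k1 X Y l η hη d2 (by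
      rw [le_div_iff₀ hL] at d3
      linarith)
    have h6 : e.tIn.re (px l η X Y) = _ := tSide_re w w.d.mi hX l η hc e.Al e.Be
    rw [h6] at h5
    have h7 := le_of_mul_le_mul_left h5 hD
    rw [re_eT7 l η X Y o.eg o.ec o.ea o.eb 0, ← hm, o.fi.sg] at h7
    refine ⟨l1, l2, a1, a2.trans (le_max_left _ _), a3, a4.trans (le_max_left _ _), ?_⟩
    have h8 := mul_le_mul_of_nonneg_left (hG.gin m h1 _ he) hM.le
    unfold Fd at h8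
    rw [← hl] at h8
    rw [← hm]
    unfold DatT.Mu Mq
    rw [if_pos h1, ← hl, MS_scl, hmul]
    push_cast at h7
    rw [one_mul] at h7
    rw [hMr] at h8
    rw [hMr]
    linarith
  · have h1' : 1 < ‖m‖ := not_le.1 h1
    obtain ⟨d1, d2, d3⟩ := o.lOut.l_bd (outD_outL o.outD) h1'.le
    obtain ⟨l, hl⟩ : ∃ l : ℝ, l = (‖m‖ ^ 2 - 1) / rF q0 q1 q2 m := ⟨_, rfl⟩
    have hL : (0:ℝ) < Ld' := by exact_mod_cast o.Ld0'
    rw [← hl] at d2 d3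
    have hc : (eCon e.g.s.d.c.fo).re (px l η X Y) = 0 := by
      refine o.fo.con ?_ (by norm_num)
      rw [← hm, hl, div_mul_cancel₀ _ d1.ne']
      push_cast
      ring
    obtain ⟨l1, l2, a1, a2, a3, a4, h5⟩ := k2 X Y l η hη d2 (by
      rw [le_div_iff₀ hL] at d3
      linarith)
    have h6 : e.tOut.re (px l η X Y) = _ := tSide_re w w.d.mo hX l η hc e.Al' e.Be'
    rw [h6] at h5
    have h7 := le_of_mul_le_mul_left h5 hD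
    rw [re_eT7 l η X Y o.eg o.ec o.ea' o.eb' 0, ← hm, o.fo.sg] at h7
    have e1 : (1 - ‖m‖ ^ 2) / rF q0 q1 q2 m = ((-1 : ℤ) : ℝ) * l := by
      rw [hl]
      push_cast
      ring
    refine ⟨l1, l2, a1, a2.trans (le_max_right _ _), a3, a4.trans (le_max_right _ _), ?_⟩
    have h8 := mul_le_mul_of_nonneg_left (hG.gout m h1' _ he) hM.le
    unfold Fd at h8
    rw [e1] at h8
    rw [← hm]
    unfold DatT.Mu Mq
    rw [if_neg h1, ← hl, MS_scl, hmul]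
    rw [hMr] at h8
    rw [hMr]
    linarith

end DatF

end Pool.Agent.Helper20.CK
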