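import Pool.Agent.Helper20.EK7.Ring

/-!
# Project CK: the critical multiplier in the half angle ring

`A = sin η = 2SC`, `B = cos η = C² - S²`, `sY = s(2X-1) + s q = 2Cσ`, `D = 2 conj (sY) - (A + iB)`:
`conj m (A + iB) = D`, `e₀ = (A+iB)²`, so `conj m ^ j e₀ = (A+iB)^(2-j) D^j`, `j ≤ 2`, of weight 4.
-/

set_option autoImplicit false

open Complex Metric Set
open scoped Real ComplexConjugate

namespace Pool.Agent.Helper20.CK

open Pool.Sos71 Pool.EK71 Pool.Agent.Helper52.EK Pool.Agent.Helper69.EK7 Pool.Agent.Helper20.EK7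
open Pool.Agent.Helper69.EK3 (eA eB eo)

/-! ### algebra -/

/-- `A + iB = i E` -/
noncomputable def AB (S C : ℝ) : ℂ := I * En S C

/-- `D = 2 conj (2 C σ) - (A + i B)` -/
noncomputable def DD (S C : ℝ) (X P : ℂ) : ℂ := 2 * conj (2 * C * sgm S X P) - AB S C

theorem AB_eq (S C : ℝ) : AB S C = ((2 * S * C : ℝ) : ℂ) + ((C ^ 2 - S ^ 2 : ℝ) : ℂ) * I := by
  unfold AB
  rw [En_eq]
  linear_combination (-((2 * S * C : ℝ) : ℂ)) * I_sq

theorem e0_AB (S C : ℝ) : e0 (2 * S * C) (C ^ 2 - S ^ 2) = AB S C ^ 2 := by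
  rw [e0_En]
  unfold AB
  linear_combination (-(En S C) ^ 2) * I_sq

section
variable {S C : ℝ} (h : S ^ 2 + C ^ 2 = 1)
include h

theorem norm_AB : ‖AB S C‖ = 1 := by
  unfold AB
  rw [norm_mul, Complex.norm_I, norm_En h, one_mul]

theorem AB_conj : AB S C * conj (AB S C) = 1 := by
  rw [Complex.mul_conj', norm_AB h]
  simp

theorem m_AB {X Y P : ℂ} (hP : P = S * (Y / X)) :
    mX X Y (2 * S * C) (C ^ 2 - S ^ 2) = 4 * C * AB S C * sgm S X P - 1 := by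
  rw [ring_m h hP]
  unfold AB
  ring

theorem cm_AB {X Y P : ℂ} (hP : P = S * (Y / X)) :
    conj (mX X Y (2 * S * C) (C ^ 2 - S ^ 2)) * AB S C = DD S C X P := by
  rw [m_AB h hP]
  have h1 := AB_conj h
  unfold DD
  simp only [map_sub, map_mul, map_ofNat, conj_ofReal, map_one]
  linear_combination (4 * (C : ℂ) * conj (sgm S X P)) * h1

/-- `conj m ^ j e₀ = (A + iB)^k D^j`, `j + k = 2` -/
theorem cmj_e0 {X Y P : ℂ} (hP : P = S * (Y / X)) {j k : ℕ} (hjk : j + k = 2) :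
    conj (mX X Y (2 * S * C) (C ^ 2 - S ^ 2)) ^ j * e0 (2 * S * C) (C ^ 2 - S ^ 2) =
      AB S C ^ k * DD S C X P ^ j := by
  rw [e0_AB, ← cm_AB h hP, ← hjk]
  ring

/-- `v = 1 + e₀ = 2 A (A + i B)` -/
theorem v_AB : 1 + e0 (2 * S * C) (C ^ 2 - S ^ 2) = 2 * (2 * S * C) * AB S C := by
  rw [one_add_e0 h]
  unfold AB
  ring

end

/-! ### expressions -/

/-- `A + i B` -/
def cAB : CE := ⟨eA, eB⟩
/-- `sY = 2 C σ` -/
def csY : CE := CE.sc 2 (CE.rm (Ex.va 2) cSg)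
/-- `D` -/
def cDD : CE := CE.add (CE.sc 2 (CE.cj csY)) (CE.sc (-1) cAB)
/-- `X² - 1` -/
def cX2 : CE := ⟨Ex.bp [[0, 0, -1], [2], [1]], Ex.bp [[0, 2], [0, 2]]⟩
/-- `conj m ^ j e₀ (X² - 1)`, `j ≤ 2`, weight 4 -/
def cMj (j : ℕ) : CE := CE.mul (CE.mul (CE.pow cAB (2 - j)) (CE.pow cDD j)) cX2

section val

variable (l η : ℝ) (X Y Z w : ℂ)

theorem v_cAB : CE.v (px9 l η X Y Z w) cAB = AB (Real.sin (η / 2)) (Real.cos (η / 2)) := by
  rw [AB_eq]
  apply Complex.ext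
  · show re9 _ eA = _
    rw [re9_eA]
    simp only [add_re, mul_re, ofReal_re, ofReal_im, I_re, I_im]
    ring
  · show re9 _ eB = _
    rw [re9_eB]
    simp only [add_im, mul_im, ofReal_re, ofReal_im, I_re, I_im]
    ring

theorem v_csY : CE.v (px9 l η X Y Z w) csY = 2 * (Real.cos (η / 2) : ℂ) *
    sgm (Real.sin (η / 2)) X ((Real.sin (η / 2) : ℂ) * (Y / X)) := by
  rw [csY, CE.v_sc, CE.v_rm, re9_2, v_cSg]
  push_cast
  ring

theorem v_cDD : CE.v (px9 l η X Y Z w) cDD = DD (Real.sin (η / 2)) (Real.cos (η / 2)) X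
    ((Real.sin (η / 2) : ℂ) * (Y / X)) := by
  rw [cDD, CE.v_add, CE.v_sc, CE.v_cj, CE.v_sc, v_cAB, v_csY, DD]
  push_cast
  ring

theorem v_cX2 : CE.v (px9 l η X Y Z w) cX2 = X ^ 2 - 1 := by
  apply Complex.ext
  · show ev2 (X.re - 1) X.im [[0, 0, -1], [2], [1]] = _
    simp only [ev2, ev1, pow_two, sub_re, mul_re, one_re]
    push_cast
    ring
  · show ev2 (X.re - 1) X.im [[0, 2], [0, 2]] = _
    simp only [ev2, ev1, pow_two, sub_im, mul_im, one_im]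
    push_cast
    ring

/-- **the critical multiplier** as an expression -/
theorem v_cMj {j : ℕ} (hj : j ≤ 2) : CE.v (px9 l η X Y Z w) (cMj j) =
    conj (mX X Y (Real.sin η) (Real.cos η)) ^ j * e0 (Real.sin η) (Real.cos η) * (X ^ 2 - 1) := by
  have hSC : Real.sin (η / 2) ^ 2 + Real.cos (η / 2) ^ 2 = 1 := Real.sin_sq_add_cos_sq _
  rw [cMj, CE.v_mul, CE.v_mul, CE.v_pow, CE.v_pow, v_cAB, v_cDD, v_cX2, sin_half η, cos_half η,
    cmj_e0 hSC (P := (Real.sin (η / 2) : ℂ) * (Y / X)) rfl (show j + (2 - j) = 2 by omega)]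

theorem re9_cMj {j : ℕ} (hj : j ≤ 2) : re9 (px9 l η X Y Z w) (cMj j).r =
    (conj (mX X Y (Real.sin η) (Real.cos η)) ^ j * e0 (Real.sin η) (Real.cos η) *
      (X ^ 2 - 1)).re := by
  rw [← v_cMj l η X Y Z w hj]
  rfl

theorem re9_cMj_im {j : ℕ} (hj : j ≤ 2) : re9 (px9 l η X Y Z w) (cMj j).i =
    (conj (mX X Y (Real.sin η) (Real.cos η)) ^ j * e0 (Real.sin η) (Real.cos η) *
      (X ^ 2 - 1)).im := by
  rw [← v_cMj l η X Y Z w hj]
  rfl

/-- in the seven variables -/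
theorem re_cMj {j : ℕ} (hj : j ≤ 2) : (cMj j).r.re (Pool.Agent.Helper69.EK6.px l η X Y) =
    (conj (mX X Y (Real.sin η) (Real.cos η)) ^ j * e0 (Real.sin η) (Real.cos η) *
      (X ^ 2 - 1)).re := by
  have h1 := re9_cMj l η X Y 0 0 hj
  have h2 : low (cMj j).r = true := by
    interval_cases j <;> rfl
  rw [re9_low _ _ h2] at h1
  exact h1

theorem re_cMj_im {j : ℕ} (hj : j ≤ 2) : (cMj j).i.re (Pool.Agent.Helper69.EK6.px l η X Y) =
    (conj (mX X Y (Real.sin η) (Real.cos η)) ^ j * e0 (Real.sin η) (Real.cos η) *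
      (X ^ 2 - 1)).im := by
  have h1 := re9_cMj_im l η X Y 0 0 hj
  have h2 : low (cMj j).i = true := by
    interval_cases j <;> rfl
  rw [re9_low _ _ h2] at h1
  exact h1

end val

/-! ### the multiplier of the derivative -/

/-- `conj m ^ j e₀ v (X² (q-1) + 1)` with `v = 1 + e₀`, times weights: weight 6 -/
def cM2j (j : ℕ) : CE := CE.mul (CE.mul (CE.pow cAB (2 - j)) (CE.pow cDD j))
  (CE.mul cAB (CE.add (CE.rm (Ex.sc 4 (Ex.va 2)) (CE.mul cP (CE.mul cX cX)))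
    (CE.rm (Ex.sc (-2) eA) cX2)))

section val2

variable (l η : ℝ) (X Y Z w : ℂ)

/-- the second multiplier as an expression, `j ≤ 2` -/
theorem v_cM2j {j : ℕ} (hj : j ≤ 2) : CE.v (px9 l η X Y Z w) (cM2j j) =
    conj (mX X Y (Real.sin η) (Real.cos η)) ^ j * e0 (Real.sin η) (Real.cos η) *
      ((1 + e0 (Real.sin η) (Real.cos η)) * (X ^ 2 * (Y / X - 1) + 1)) := by
  have hSC : Real.sin (η / 2) ^ 2 + Real.cos (η / 2) ^ 2 = 1 := Real.sin_sq_add_cos_sq _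
  have e1 : re9 (px9 l η X Y Z w) (Ex.sc 4 (Ex.va 2)) = 4 * Real.cos (η / 2) := by
    show ((4 : ℤ) : ℝ) * Real.cos (η / 2) = _
    push_cast
    ring
  have e2 : re9 (px9 l η X Y Z w) (Ex.sc (-2) eA) =
      -2 * (2 * Real.sin (η / 2) * Real.cos (η / 2)) := by
    show ((-2 : ℤ) : ℝ) * re9 _ eA = _
    rw [re9_eA]
    push_cast
    ring
  rw [cM2j, CE.v_mul, CE.v_mul, CE.v_pow, CE.v_pow, CE.v_mul, CE.v_add, CE.v_rm, CE.v_mul,
    CE.v_mul, CE.v_rm, e1, e2, v_cAB, v_cDD, v_cX2, v_cX, v_cP, sin_half η, cos_half η,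
    cmj_e0 hSC (P := (Real.sin (η / 2) : ℂ) * (Y / X)) rfl (show j + (2 - j) = 2 by omega),
    v_AB hSC]
  push_cast
  ring

end val2

end Pool.Agent.Helper20.CK
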