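import Pool.Agent.Helper20.CK.BoxChk
import Pool.Agent.Helper71.CK.Dat

/-!
# Project CK: bound of the multiplier, checked by the kernel

`mchk true/false ...`: `|MS L l m| ≤ (Bn / Bd) M` for `l = sg (1 - |m|²) r / ρ(m)`,
`ρ(m) = r0 + r1 |m+1|² + r2 |m|²`, on `|m| ≤ 1` and on `1 ≤ |m|`, `|m + 3| ≤ 4`.
-/

set_option autoImplicit false

open Complex
open scoped ComplexConjugate

namespace Pool.Agent.Helper20.CK

open Pool.EK71
open Pool.Agent.Helper71.CK (MS Mq)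
open Pool.Agent.Helper69.EK3 (rF rF_eq re_sq_le)
open Pool.Agent.Helper69.EK3 (imul_cast' iadd_cast')
open Pool.Agent.Helper20.EK7 (InL OutL)

/-- `P ^ n` -/
def pw (P : BP) : ℕ → BP
  | 0 => [[1]]
  | n + 1 => mu2 P (pw P n)

theorem ev2_pw (x y : ℝ) (P : BP) (n : ℕ) : ev2 x y (pw P n) = ev2 x y P ^ n := by
  induction n with
  | zero => simp [pw, ev2, ev1]
  | succ n ih => rw [pw, ev2_mu, ih, pow_succ]; ring

/-- `w ρ`, in the variables `w x`, `w s` -/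
def rh (w r0 r1 r2 : ℤ) : BP :=
  [[Int.mul (Int.add r0 r1) w, Int.add r1 r2], [Int.mul 2 r1]]

/-- `w sg r (1 - s)` -/
def om (w sg r : ℤ) : BP := [[Int.mul (Int.mul sg r) w, Int.neg (Int.mul sg r)]]

/-- the coefficient of `(conj m)^j`, times `(w ρ)^N` -/
def pj (R O : BP) (N j : ℕ) : List (ℕ × ℕ × ℤ) → BP
  | [] => []
  | t :: L => ad2 (cond (Nat.beq t.2.1 j) (sm2 t.2.2 (mu2 (pw O t.1) (pw R (N - t.1)))) [])
      (pj R O N j L)

/-- `w x` -/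
def bX : BP := [[], [1]]
/-- `w s` -/
def bS : BP := [[0, 1]]
/-- a constant -/
def bC (w : ℤ) : BP := [[w]]

/-- `|p0 + p1 conj m + p2 (conj m)²|²`, homogenized with degree two -/
def nq (w : ℤ) (A B C : BP) : BP :=
  ad2 (ad2 (mu2 (bC (Int.mul w w)) (mu2 A A)) (ad2 (mu2 (mu2 (bC w) bS) (mu2 B B))
      (mu2 (mu2 bS bS) (mu2 C C))))
    (sm2 2 (ad2 (mu2 (mu2 (bC w) bX) (mu2 A B)) (ad2 (mu2 (mu2 bX bS) (mu2 B C))
      (mu2 (ad2 (sm2 2 (mu2 bX bX)) (sm2 (-1) (mu2 (bC w) bS))) (mu2 A C)))))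

/-- the polynomial of the condition -/
def mF (w sg r r0 r1 r2 M Bn Bd : ℤ) (N : ℕ) (L : List (ℕ × ℕ × ℤ)) : BP :=
  ad2 (sm2 (Int.mul (Int.mul (Int.mul Bn M) (Int.mul Bn M)) (Int.mul w w))
      (pw (rh w r0 r1 r2) (2 * N)))
    (sm2 (Int.neg (Int.mul Bd Bd))
      (nq w (pj (rh w r0 r1 r2) (om w sg r) N 0 L) (pj (rh w r0 r1 r2) (om w sg r) N 1 L)
        (pj (rh w r0 r1 r2) (om w sg r) N 2 L)))

/-- `w² (s - x²)` -/
def gS (w : ℤ) : BP := [[0, w], [], [-1]]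
/-- `w (7 - s - 6 x)` -/
def g7 (w : ℤ) : BP := [[Int.mul 7 w, -1], [-6]]

def degs (N : ℕ) : List (ℕ × ℕ × ℤ) → Bool
  | [] => true
  | t :: L => and (and (Nat.ble t.1 N) (Nat.ble t.2.1 2)) (degs N L)

/-- the check, resolution `2k`, degree `N` in `l`, depth `n` -/
def mchk (inn : Bool) (k : ℕ) (n N : ℕ) (sg r r0 r1 r2 M Bn Bd : ℤ)
    (L : List (ℕ × ℕ × ℤ)) : Bool :=
  and (degs N L) (cond inn
    (bx (mF (Int.ofNat (Nat.mul 2 k)) sg r r0 r1 r2 M Bn Bd N L)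
      [gS (Int.ofNat (Nat.mul 2 k))] n 0 (Nat.mul 2 k) (Int.ofNat k) k)
    (bx (mF (Int.ofNat (Nat.mul 2 k)) sg r r0 r1 r2 M Bn Bd N L)
      [gS (Int.ofNat (Nat.mul 2 k)), g7 (Int.ofNat (Nat.mul 2 k))] n
      (Int.mul (-6) (Int.ofNat k)) (Nat.mul 8 k) (Int.ofNat (Nat.mul 50 k)) (Nat.mul 48 k)))

/-! ### values -/

/-- `∑ c lⁿ` over the terms with `(conj m)^j` -/
noncomputable def sj (l : ℝ) (j : ℕ) (L : List (ℕ × ℕ × ℤ)) : ℝ :=
  (L.map fun t => if t.2.1 = j then (t.2.2 : ℝ) * l ^ t.1 else 0).sum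

theorem MS_sj {L : List (ℕ × ℕ × ℤ)} (hL : ∀ t ∈ L, t.2.1 ≤ 2) (l : ℝ) (m : ℂ) :
    MS L l m = (sj l 0 L : ℂ) + (sj l 1 L : ℂ) * conj m + (sj l 2 L : ℂ) * conj m ^ 2 := by
  unfold MS sj
  induction L with
  | nil => simp
  | cons t L ih =>
    rw [List.map_cons, List.sum_cons, ih fun s hs => hL s (List.mem_cons_of_mem _ hs)]
    simp only [List.map_cons, List.sum_cons]
    have h := hL t List.mem_cons_self
    obtain ⟨n, j, c⟩ := t
    simp only at h ⊢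
    interval_cases j
    · simp
      ring
    · simp
      ring
    · simp
      ring

theorem norm_sq_quad (a b c : ℝ) (m : ℂ) :
    ‖(a : ℂ) + (b : ℂ) * conj m + (c : ℂ) * conj m ^ 2‖ ^ 2 =
      a ^ 2 + b ^ 2 * ‖m‖ ^ 2 + c ^ 2 * (‖m‖ ^ 2) ^ 2 + 2 * (a * b * m.re) +
        2 * (b * c * (m.re * ‖m‖ ^ 2)) + 2 * (a * c * (2 * m.re ^ 2 - ‖m‖ ^ 2)) := by
  rw [← normSq_eq_norm_sq, ← normSq_eq_norm_sq, normSq_apply, normSq_apply]
  simp only [pow_two, add_re, add_im, mul_re, mul_im, ofReal_re, ofReal_im, conj_re, conj_im]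
  ring

section
variable {w r r0 r1 r2 : ℤ} {sg : ℤ} {x s ρ l : ℝ} {N : ℕ}

theorem ev_rh (w r0 r1 r2 : ℤ) (x s : ℝ) : ev2 (w * x) (w * s) (rh w r0 r1 r2) =
    w * ((r0 + r1 : ℝ) + 2 * r1 * x + (r1 + r2) * s) := by
  simp only [rh, ev2, ev1, imul_cast', iadd_cast']
  push_cast
  ring

theorem ev_om (w sg r : ℤ) (x s : ℝ) : ev2 (w * x) (w * s) (om w sg r) =
    w * (sg * r * (1 - s)) := by
  have e3 : ((Int.neg (Int.mul sg r) : ℤ) : ℝ) = - (sg * r) := by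
    show (((-(sg * r) : ℤ)) : ℝ) = _
    push_cast
    ring
  simp only [om, ev2, ev1, imul_cast', e3]
  ring

theorem ev_pj {w sg r r0 r1 r2 : ℤ} {x s ρ l : ℝ} {N : ℕ}
    (hρ : ρ = (r0 + r1 : ℝ) + 2 * r1 * x + (r1 + r2) * s) (hl : l * ρ = sg * r * (1 - s))
    (j : ℕ) (L : List (ℕ × ℕ × ℤ)) (hL : ∀ t ∈ L, t.1 ≤ N) :
    ev2 (w * x) (w * s) (pj (rh w r0 r1 r2) (om w sg r) N j L) =
      (w * ρ) ^ N * sj l j L := by
  induction L with
  | nil => simp [pj, ev2, sj]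
  | cons t L ih =>
    have ih' := ih fun q hq => hL q (List.mem_cons_of_mem _ hq)
    have hn := hL t List.mem_cons_self
    have e : sj l j (t :: L) = (if t.2.1 = j then (t.2.2 : ℝ) * l ^ t.1 else 0) + sj l j L := by
      simp [sj]
    rw [pj, ev2_ad, ih', e]
    by_cases h : t.2.1 = j
    · have hb : Nat.beq t.2.1 j = true := by rw [h]; exact Nat.beq_refl j
      rw [hb, cond_true, if_pos h, ev2_sm, ev2_mu, ev2_pw, ev2_pw, ev_rh, ev_om, ← hρ, ← hl]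
      have e2 : (w * ρ) ^ N = (w * ρ) ^ t.1 * (w * ρ) ^ (N - t.1) := by
        rw [← pow_add]
        congr 1
        omega
      rw [e2]
      ring
    · have hb : Nat.beq t.2.1 j = false := by
        rw [Bool.eq_false_iff]
        intro h2
        exact h (Nat.eq_of_beq_eq_true h2)
      rw [hb, cond_false, if_neg h]
      simp only [ev2]
      ring

theorem ev_nq (w : ℤ) (A B C : BP) (x s : ℝ) : ev2 (w * x) (w * s) (nq w A B C) =
    w ^ 2 * (ev2 (w * x) (w * s) A ^ 2 + ev2 (w * x) (w * s) B ^ 2 * s +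
      ev2 (w * x) (w * s) C ^ 2 * s ^ 2 +
      2 * (ev2 (w * x) (w * s) A * ev2 (w * x) (w * s) B * x) +
      2 * (ev2 (w * x) (w * s) B * ev2 (w * x) (w * s) C * (x * s)) +
      2 * (ev2 (w * x) (w * s) A * ev2 (w * x) (w * s) C * (2 * x ^ 2 - s))) := by
  unfold nq
  simp only [ev2_ad, ev2_sm, ev2_mu]
  have e1 : ev2 (w * x) (w * s) (bC (Int.mul w w)) = w * w := by
    simp [bC, ev2, ev1]
  have e2 : ev2 (w * x) (w * s) (bC w) = w := by simp [bC, ev2, ev1]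
  have e3 : ev2 (w * x) (w * s) bX = w * x := by simp [bX, ev2, ev1]
  have e4 : ev2 (w * x) (w * s) bS = w * s := by simp [bS, ev2, ev1]
  rw [e1, e2, e3, e4]
  push_cast
  ring

theorem ev_mF {w sg r r0 r1 r2 M Bn Bd : ℤ} {x s ρ l : ℝ} {N : ℕ}
    (hρ : ρ = (r0 + r1 : ℝ) + 2 * r1 * x + (r1 + r2) * s) (hl : l * ρ = sg * r * (1 - s))
    {L : List (ℕ × ℕ × ℤ)} (hL : ∀ t ∈ L, t.1 ≤ N) :
    ev2 (w * x) (w * s) (mF w sg r r0 r1 r2 M Bn Bd N L) =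
      w ^ 2 * ((w * ρ) ^ N) ^ 2 * ((Bn * M) ^ 2 - Bd ^ 2 *
        (sj l 0 L ^ 2 + sj l 1 L ^ 2 * s + sj l 2 L ^ 2 * s ^ 2 +
          2 * (sj l 0 L * sj l 1 L * x) + 2 * (sj l 1 L * sj l 2 L * (x * s)) +
          2 * (sj l 0 L * sj l 2 L * (2 * x ^ 2 - s)))) := by
  unfold mF
  have e3 : ((Int.neg (Int.mul Bd Bd) : ℤ) : ℝ) = - (Bd * Bd) := by
    show (((-(Bd * Bd) : ℤ)) : ℝ) = _
    push_cast
    ring
  rw [ev2_ad, ev2_sm, ev2_sm, ev2_pw, ev_rh, ev_nq, ev_pj hρ hl 0 L hL, ev_pj hρ hl 1 L hL,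
    ev_pj hρ hl 2 L hL, ← hρ, e3]
  simp only [imul_cast']
  rw [pow_mul']
  ring

end

theorem degs_iff {N : ℕ} {L : List (ℕ × ℕ × ℤ)} (h : degs N L = true) :
    (∀ t ∈ L, t.1 ≤ N) ∧ ∀ t ∈ L, t.2.1 ≤ 2 := by
  induction L with
  | nil => simp
  | cons t L ih =>
    simp only [degs, Bool.and_eq_true, Nat.ble_eq] at h
    obtain ⟨⟨h1, h2⟩, h3⟩ := h
    obtain ⟨k1, k2⟩ := ih h3
    exact ⟨by intro q hq; rcases List.mem_cons.1 hq with rfl | hq <;> [exact h1; exact k1 q hq],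
      by intro q hq; rcases List.mem_cons.1 hq with rfl | hq <;> [exact h2; exact k2 q hq]⟩

theorem nmul_cast (a b : ℕ) : ((Nat.mul a b : ℕ) : ℝ) = a * b := by
  show (((a * b : ℕ)) : ℝ) = _
  push_cast
  ring

theorem zof_cast (a : ℕ) : ((Int.ofNat a : ℤ) : ℝ) = a := by simp

/-- **the bound** from the checker -/
theorem MS_le {inn : Bool} {k n N : ℕ} {sg r r0 r1 r2 M Bn Bd : ℤ}
    {L : List (ℕ × ℕ × ℤ)} (h : mchk inn k n N sg r r0 r1 r2 M Bn Bd L = true) (hk : 0 < k)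
    (hM : 0 < M) (hBn : 0 ≤ Bn) (hBd : 0 < Bd) {m : ℂ}
    (hm : (inn = true ∧ ‖m‖ ≤ 1) ∨ (inn = false ∧ 1 ≤ ‖m‖ ∧ ‖m + 3‖ ≤ 4)) {l ρ : ℝ}
    (hρ : ρ = (r0 + r1 : ℝ) + 2 * r1 * m.re + (r1 + r2) * ‖m‖ ^ 2) (hρ0 : ρ ≠ 0)
    (hl : l * ρ = sg * r * (1 - ‖m‖ ^ 2)) :
    ‖MS L l m / (M : ℂ)‖ ≤ (Bn : ℝ) / Bd := by
  rw [mchk, Bool.and_eq_true] at h
  obtain ⟨hd, h⟩ := h
  obtain ⟨d1, d2⟩ := degs_iff hd
  obtain ⟨w, hw⟩ : ∃ w : ℤ, w = Int.ofNat (Nat.mul 2 k) := ⟨_, rfl⟩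
  have hwr : (w : ℝ) = 2 * k := by rw [hw, zof_cast, nmul_cast, Nat.cast_ofNat]
  have hk0 : (0:ℝ) < k := by exact_mod_cast hk
  have hw0 : (0:ℝ) < w := by rw [hwr]; positivity
  rw [← hw] at h
  have hs := re_sq_le m
  obtain ⟨s, hs'⟩ : ∃ s : ℝ, s = ‖m‖ ^ 2 := ⟨_, rfl⟩
  obtain ⟨x, hx'⟩ : ∃ x : ℝ, x = m.re := ⟨_, rfl⟩
  have hgS : 0 ≤ ev2 (w * x) (w * s) (gS w) := by
    simp only [gS, ev2, ev1]
    push_cast
    have : (w:ℝ) * s * (w + w * s * 0) + w * x * (0 + w * x * (-1 + w * s * 0 + w * x * 0)) =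
        w ^ 2 * (s - x ^ 2) := by ring
    have h2 : 0 ≤ (w:ℝ) ^ 2 * (s - x ^ 2) := by
      rw [hs', hx']
      exact mul_nonneg (sq_nonneg _) (sub_nonneg.2 hs)
    linarith
  have key : 0 < ev2 (w * x) (w * s) (mF w sg r r0 r1 r2 M Bn Bd N L) := by
    rcases hm with ⟨hi, hm⟩ | ⟨hi, hm, hm3⟩
    · rw [hi, cond_true] at h
      refine bx_sound (G := [gS w]) (by simpa using hgS) n _ _ _ _ h ?_ ?_
      · rw [Int.cast_zero, sub_zero, nmul_cast, abs_mul, abs_of_pos hw0, hwr, hx']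
        have := (Complex.abs_re_le_norm m).trans hm
        push_cast
        nlinarith
      · have h1 : s ≤ 1 := by rw [hs']; nlinarith [norm_nonneg m]
        have h0 : 0 ≤ s := by rw [hs']; positivity
        rw [zof_cast, hwr, abs_le]
        constructor <;> nlinarith
    · rw [hi, cond_false] at h
      have e3 : ‖m + 3‖ ^ 2 = s + 6 * x + 9 := by
        rw [hs', hx', ← normSq_eq_norm_sq, ← normSq_eq_norm_sq, normSq_apply, normSq_apply]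
        simp only [add_re, add_im, re_ofNat, im_ofNat]
        ring
      have e4 : s + 6 * x ≤ 7 := by
        have : ‖m + 3‖ ^ 2 ≤ 16 := by nlinarith [norm_nonneg (m + 3)]
        linarith
      have h1 : 1 ≤ s := by rw [hs']; nlinarith
      rw [← hs', ← hx'] at hs
      have hx1 : x ≤ 1 := by nlinarith
      have hx7 : -7 ≤ x := by nlinarith
      have hs49 : s ≤ 49 := by linarith
      have hg7 : 0 ≤ ev2 (w * x) (w * s) (g7 w) := by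
        simp only [g7, ev2, ev1, imul_cast']
        push_cast
        have : (0:ℝ) ≤ w * (7 - s - 6 * x) := mul_nonneg hw0.le (by linarith)
        linarith
      refine bx_sound (G := [gS w, g7 w]) (by
        intro g hg
        simp only [List.mem_cons, List.not_mem_nil, or_false] at hg
        rcases hg with rfl | rfl
        · exact hgS
        · exact hg7) n _ _ _ _ h ?_ ?_
      · rw [imul_cast', zof_cast, nmul_cast, hwr, abs_le]
        push_cast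
        constructor <;> nlinarith
      · rw [zof_cast, nmul_cast, nmul_cast, hwr, abs_le]
        push_cast
        constructor <;> nlinarith
  rw [← hs', ← hx'] at hρ
  rw [← hs'] at hl
  rw [ev_mF hρ hl d1] at key
  have h5 : 0 < (w:ℝ) ^ 2 * ((w * ρ) ^ N) ^ 2 := by positivity
  have h6 := (mul_pos_iff_of_pos_left h5).1 key
  have h7 := norm_sq_quad (sj l 0 L) (sj l 1 L) (sj l 2 L) m
  rw [← MS_sj d2 l m, ← hs', ← hx'] at h7
  have hM0 : (0:ℝ) < M := by exact_mod_cast hM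
  have hB0 : (0:ℝ) < Bd := by exact_mod_cast hBd
  have hBn0 : (0:ℝ) ≤ Bn := by exact_mod_cast hBn
  have h8 : (Bd * ‖MS L l m‖) ^ 2 ≤ (Bn * M : ℝ) ^ 2 := by
    rw [mul_pow, h7]
    linarith
  have h9 : (Bd : ℝ) * ‖MS L l m‖ ≤ Bn * M :=
    le_of_sq_le_sq h8 (mul_nonneg hBn0 hM0.le)
  rw [norm_div, norm_intCast, abs_of_pos hM0, div_le_div_iff₀ hM0 hB0]
  linarith

/-- the parameters of one side are the rationals `ri / r` -/
structure ROk (r r0 r1 r2 : ℤ) (p0 p1 p2 : ℝ) : Prop where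
  pos : 0 < r
  e0 : (r0 : ℝ) = r * p0
  e1 : (r1 : ℝ) = r * p1
  e2 : (r2 : ℝ) = r * p2

/-- **the bound of the multiplier** -/
theorem Mq_le {a p0 p1 p2 q0 q1 q2 : ℝ} (hp : InL p0 p1 p2) (hq : OutL a q0 q1 q2)
    {r r0 r1 r2 r' r0' r1' r2' : ℤ} (hr : ROk r r0 r1 r2 p0 p1 p2)
    (hr' : ROk r' r0' r1' r2' q0 q1 q2) {k n N k' n' N' : ℕ} {M Bn Bd : ℤ}
    {MI MO : List (ℕ × ℕ × ℤ)} (hk : 0 < k) (hk' : 0 < k') (hM : 0 < M) (hBn : 0 ≤ Bn)
    (hBd : 0 < Bd) (h : mchk true k n N 1 r r0 r1 r2 M Bn Bd MI = true)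
    (h' : mchk false k' n' N' (-1) r' r0' r1' r2' M Bn Bd MO = true) {m : ℂ}
    (hm : ‖m + 3‖ ≤ 4) : ‖Mq M MI MO p0 p1 p2 q0 q1 q2 m‖ ≤ (Bn : ℝ) / Bd := by
  unfold Mq
  split_ifs with h1
  · obtain ⟨c, hc, hl⟩ := hp.low
    have hr0 : (0:ℝ) < r := by exact_mod_cast hr.pos
    have h2 : 0 < rF p0 p1 p2 m := lt_of_lt_of_le (by positivity) (hl m h1)
    refine MS_le h hk hM hBn hBd (Or.inl ⟨rfl, h1⟩) (ρ := r * rF p0 p1 p2 m) ?_
      (mul_pos hr0 h2).ne' ?_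
    · rw [rF_eq, hr.e0, hr.e1, hr.e2]
      ring
    · push_cast
      field_simp
  · have h1' : 1 ≤ ‖m‖ := (not_le.1 h1).le
    obtain ⟨c, hc, hl⟩ := hq.low
    have hr0 : (0:ℝ) < r' := by exact_mod_cast hr'.pos
    have h2 : 0 < rF q0 q1 q2 m := lt_of_lt_of_le (by positivity) (hl m)
    refine MS_le h' hk' hM hBn hBd (Or.inr ⟨rfl, h1', hm⟩) (ρ := r' * rF q0 q1 q2 m) ?_
      (mul_pos hr0 h2).ne' ?_
    · rw [rF_eq, hr'.e0, hr'.e1, hr'.e2]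
      ring
    · push_cast
      field_simp
      ring

end Pool.Agent.Helper20.CK
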