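import Pool.Agent.Helper20.CK.MBound
import Pool.Agent.Helper20.EK7.Glue

/-!
# Project CK: the global multiplier

`Mg = Mq ∘ p4`, `p4` the retraction to the disc `|m + 3| ≤ 4`.
-/

set_option autoImplicit false

open Complex Metric Set
open scoped ComplexConjugate

namespace Pool.Agent.Helper20.CK

open Pool.EK71
open Pool.Agent.Helper71.CK (MS Mq MS_conj MS_zero Mq_conj)
open Pool.Agent.Helper69.EK3 (rF rF_eq exists_cross)
open Pool.Agent.Helper69.EK7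
open Pool.Agent.Helper20.EK7

/-- bounded and Lipschitz on `S` -/
def BLi (S : Set ℂ) (f : ℂ → ℂ) : Prop :=
  ∃ C : ℝ, 0 ≤ C ∧ (∀ m ∈ S, ‖f m‖ ≤ C) ∧ ∀ m ∈ S, ∀ m' ∈ S, ‖f m - f m'‖ ≤ C * ‖m - m'‖

variable {S : Set ℂ} {f g : ℂ → ℂ}

theorem BLi.congr (h : BLi S f) (e : ∀ m ∈ S, g m = f m) : BLi S g := by
  obtain ⟨C, h0, h1, h2⟩ := h
  exact ⟨C, h0, fun m hm => by rw [e m hm]; exact h1 m hm,
    fun m hm m' hm' => by rw [e m hm, e m' hm']; exact h2 m hm m' hm'⟩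

theorem BLi.const (c : ℂ) : BLi S fun _ => c :=
  ⟨‖c‖, norm_nonneg _, fun _ _ => le_rfl, fun m _ m' _ => by
    rw [sub_self, norm_zero]; positivity⟩

theorem BLi.idf {R : ℝ} (hS : ∀ m ∈ S, ‖m‖ ≤ R) : BLi S fun m => m :=
  ⟨max R 1, by positivity, fun m hm => (hS m hm).trans (le_max_left _ _), fun m _ m' _ => by
    have := mul_le_mul_of_nonneg_right (le_max_right R 1) (norm_nonneg (m - m'))
    linarith⟩

theorem BLi.conjf (h : BLi S f) : BLi S fun m => conj (f m) := by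
  obtain ⟨C, h0, h1, h2⟩ := h
  refine ⟨C, h0, fun m hm => by rw [norm_conj]; exact h1 m hm, fun m hm m' hm' => ?_⟩
  rw [← map_sub, norm_conj]
  exact h2 m hm m' hm'

theorem BLi.add (h : BLi S f) (h' : BLi S g) : BLi S fun m => f m + g m := by
  obtain ⟨C, h0, h1, h2⟩ := h
  obtain ⟨D, k0, k1, k2⟩ := h'
  refine ⟨C + D, by positivity, fun m hm => (norm_add_le _ _).trans
    (add_le_add (h1 m hm) (k1 m hm)), fun m hm m' hm' => ?_⟩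
  rw [add_sub_add_comm, add_mul]
  exact (norm_add_le _ _).trans (add_le_add (h2 m hm m' hm') (k2 m hm m' hm'))

theorem BLi.mul (h : BLi S f) (h' : BLi S g) : BLi S fun m => f m * g m := by
  obtain ⟨C, h0, h1, h2⟩ := h
  obtain ⟨D, k0, k1, k2⟩ := h'
  refine ⟨2 * (C * D) , by positivity, fun m hm => ?_, fun m hm m' hm' => ?_⟩
  · rw [norm_mul]
    have := mul_le_mul (h1 m hm) (k1 m hm) (norm_nonneg _) h0
    have := mul_nonneg h0 k0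
    linarith
  · have e : f m * g m - f m' * g m' = (f m - f m') * g m + f m' * (g m - g m') := by ring
    rw [e]
    refine (norm_add_le _ _).trans ?_
    rw [norm_mul, norm_mul]
    have q := norm_nonneg (m - m')
    have a1 := mul_le_mul (h2 m hm m' hm') (k1 m hm) (norm_nonneg _) (mul_nonneg h0 q)
    have a2 := mul_le_mul (h1 m' hm') (k2 m hm m' hm') (norm_nonneg _) h0
    linarith

theorem BLi.powf (h : BLi S f) (n : ℕ) : BLi S fun m => f m ^ n := by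
  induction n with
  | zero => exact (BLi.const 1).congr fun m _ => pow_zero _
  | succ n ih => exact (ih.mul h).congr fun m _ => pow_succ _ _

theorem BLi.inv (h : BLi S f) {c : ℝ} (hc : 0 < c) (hf : ∀ m ∈ S, c ≤ ‖f m‖) :
    BLi S fun m => (f m)⁻¹ := by
  obtain ⟨C, h0, h1, h2⟩ := h
  have hne : ∀ m ∈ S, f m ≠ 0 := fun m hm => norm_pos_iff.1 (hc.trans_le (hf m hm))
  refine ⟨max (1 / c) (C / c ^ 2), by positivity, fun m hm => ?_, fun m hm m' hm' => ?_⟩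
  · rw [norm_inv, ← one_div]
    exact (one_div_le_one_div_of_le hc (hf m hm)).trans (le_max_left _ _)
  · have n1 := hne m hm
    have n2 := hne m' hm'
    have e : (f m)⁻¹ - (f m')⁻¹ = - (f m - f m') / (f m * f m') := by
      field_simp
      ring
    rw [e, norm_div, norm_neg, norm_mul]
    have a1 : c ^ 2 ≤ ‖f m‖ * ‖f m'‖ := by
      rw [pow_two]
      exact mul_le_mul (hf m hm) (hf m' hm') hc.le (norm_nonneg _)
    have a2 := h2 m hm m' hm'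
    have q := norm_nonneg (m - m')
    have a3 : ‖f m - f m'‖ / (‖f m‖ * ‖f m'‖) ≤ C * ‖m - m'‖ / c ^ 2 :=
      div_le_div₀ (mul_nonneg h0 q) a2 (by positivity) a1
    refine a3.trans ?_
    rw [mul_div_right_comm]
    exact mul_le_mul_of_nonneg_right (le_max_right _ _) q

theorem BLi.normsq {R : ℝ} (hS : ∀ m ∈ S, ‖m‖ ≤ R) : BLi S fun m => ((‖m‖ ^ 2 : ℝ) : ℂ) :=
  ((BLi.idf hS).mul (BLi.idf hS).conjf).congr fun m _ => by
    rw [mul_conj, normSq_eq_norm_sq]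

theorem BLi.ref {R : ℝ} (hS : ∀ m ∈ S, ‖m‖ ≤ R) : BLi S fun m => ((m.re : ℝ) : ℂ) :=
  ((BLi.const (1 / 2)).mul ((BLi.idf hS).add (BLi.idf hS).conjf)).congr fun m _ => by
    rw [add_conj]
    push_cast
    ring

theorem BLi.rFf {R : ℝ} (hS : ∀ m ∈ S, ‖m‖ ≤ R) (p0 p1 p2 : ℝ) :
    BLi S fun m => ((rF p0 p1 p2 m : ℝ) : ℂ) :=
  (((BLi.const ((p0 + p1 : ℝ) : ℂ)).add ((BLi.const ((2 * p1 : ℝ) : ℂ)).mul (BLi.ref hS))).add
    ((BLi.const ((p1 + p2 : ℝ) : ℂ)).mul (BLi.normsq hS))).congr fun m _ => by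
    rw [rF_eq]
    push_cast
    ring

/-- the function `l` -/
theorem BLi.lf {R c : ℝ} (hS : ∀ m ∈ S, ‖m‖ ≤ R) (a b p0 p1 p2 : ℝ) (hc : 0 < c)
    (hr : ∀ m ∈ S, c ≤ rF p0 p1 p2 m) :
    BLi S fun m => (((a + b * ‖m‖ ^ 2) / rF p0 p1 p2 m : ℝ) : ℂ) :=
  (((BLi.const (a : ℂ)).add ((BLi.const (b : ℂ)).mul (BLi.normsq hS))).mul
    ((BLi.rFf hS p0 p1 p2).inv hc fun m hm => by
      rw [norm_real, Real.norm_of_nonneg (hc.le.trans (hr m hm))]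
      exact hr m hm)).congr fun m _ => by
    rw [div_eq_mul_inv]
    push_cast
    ring

theorem BLi.ms {R : ℝ} (hS : ∀ m ∈ S, ‖m‖ ≤ R) {l : ℂ → ℝ} (hl : BLi S fun m => (l m : ℂ))
    (M : ℤ) (L : List (ℕ × ℕ × ℤ)) : BLi S fun m => MS L (l m) m / (M : ℂ) := by
  have h : BLi S fun m => MS L (l m) m := by
    induction L with
    | nil => exact (BLi.const 0).congr fun m _ => by simp [MS]
    | cons t L ih =>
      exact (((BLi.const (t.2.2 : ℂ)).mul ((hl.powf t.1).mul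
        ((BLi.idf hS).conjf.powf t.2.1))).add ih).congr fun m _ => by
          simp [MS]
  exact (h.mul (BLi.const ((M : ℂ)⁻¹))).congr fun m _ => div_eq_mul_inv _ _

/-- the `l⁰` terms agree -/
def Zeq (MI MO : List (ℕ × ℕ × ℤ)) : Prop :=
  (MI.filter fun t => t.1 == 0) = (MO.filter fun t => t.1 == 0)

instance (MI MO : List (ℕ × ℕ × ℤ)) : Decidable (Zeq MI MO) := by
  unfold Zeq; infer_instance

section glob
variable {a p0 p1 p2 q0 q1 q2 : ℝ} {MI MO : List (ℕ × ℕ × ℤ)}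

/-- **the multiplier is bounded and Lipschitz on bounded sets** -/
theorem Mq_lip (hp : InL p0 p1 p2) (hq : OutL a q0 q1 q2) (hz : Zeq MI MO) (M : ℤ) (R : ℝ) :
    ∃ C : ℝ, 0 ≤ C ∧ (∀ m : ℂ, ‖m‖ ≤ R → ‖Mq M MI MO p0 p1 p2 q0 q1 q2 m‖ ≤ C) ∧
      ∀ m m' : ℂ, ‖m‖ ≤ R → ‖m'‖ ≤ R →
        ‖Mq M MI MO p0 p1 p2 q0 q1 q2 m - Mq M MI MO p0 p1 p2 q0 q1 q2 m'‖ ≤ C * ‖m - m'‖ := by
  obtain ⟨c, hc, hcl⟩ := hp.low
  obtain ⟨d, hd, hdl⟩ := hq.low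
  -- inside
  have hA := BLi.ms (S := {m : ℂ | ‖m‖ ≤ 1}) (R := 1) (fun m hm => hm)
    (BLi.lf (S := {m : ℂ | ‖m‖ ≤ 1}) (R := 1) (fun m hm => hm) 1 (-1) p0 p1 p2 hc
      fun m hm => (le_mul_of_one_le_right hc.le (by have := sq_nonneg ‖m‖; linarith)).trans
        (hcl m hm)) M MI
  have hB := BLi.ms (S := {m : ℂ | 1 ≤ ‖m‖ ∧ ‖m‖ ≤ max R 1}) (R := max R 1) (fun m hm => hm.2)
    (BLi.lf (S := {m : ℂ | 1 ≤ ‖m‖ ∧ ‖m‖ ≤ max R 1}) (R := max R 1) (fun m hm => hm.2)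
      (-1) 1 q0 q1 q2 hd
      fun m hm => (le_mul_of_one_le_right hd.le (by have := sq_nonneg ‖m‖; linarith)).trans
        (hdl m)) M MO
  obtain ⟨C, hC0, hC1, hC2⟩ := hA
  obtain ⟨D, hD0, hD1, hD2⟩ := hB
  have eA : ∀ m : ℂ, ‖m‖ ≤ 1 → Mq M MI MO p0 p1 p2 q0 q1 q2 m =
      MS MI ((1 + (-1) * ‖m‖ ^ 2) / rF p0 p1 p2 m) m / (M : ℂ) := by
    intro m hm
    unfold Mq
    rw [if_pos hm]
    congr 3
    ring
  have eB' : ∀ m : ℂ, 1 < ‖m‖ → Mq M MI MO p0 p1 p2 q0 q1 q2 m =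
      MS MO ((-1 + 1 * ‖m‖ ^ 2) / rF q0 q1 q2 m) m / (M : ℂ) := by
    intro m hm
    unfold Mq
    rw [if_neg (not_le.2 hm)]
    congr 3
    ring
  have eB : ∀ m : ℂ, 1 ≤ ‖m‖ → Mq M MI MO p0 p1 p2 q0 q1 q2 m =
      MS MO ((-1 + 1 * ‖m‖ ^ 2) / rF q0 q1 q2 m) m / (M : ℂ) := by
    intro m hm
    rcases hm.lt_or_eq with h | h
    · exact eB' m h
    · rw [eA m h.ge, ← h]
      have e1 : (1 + (-1) * (1:ℝ) ^ 2) / rF p0 p1 p2 m = 0 := by norm_num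
      have e2 : (-1 + 1 * (1:ℝ) ^ 2) / rF q0 q1 q2 m = 0 := by norm_num
      rw [e1, e2, MS_zero MI, MS_zero MO, hz]
  have hle : ∀ m : ℂ, ‖m‖ ≤ R → ‖Mq M MI MO p0 p1 p2 q0 q1 q2 m‖ ≤ max C D := by
    intro m hm
    rcases le_or_gt ‖m‖ 1 with h | h
    · rw [eA m h]
      exact (hC1 m h).trans (le_max_left _ _)
    · rw [eB m h.le]
      exact (hD1 m ⟨h.le, hm.trans (le_max_left _ _)⟩).trans (le_max_right _ _)
  have h00 : 0 ≤ max C D := le_max_of_le_left hC0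
  have kA : ∀ m m' : ℂ, ‖m‖ ≤ 1 → ‖m'‖ ≤ 1 →
      ‖Mq M MI MO p0 p1 p2 q0 q1 q2 m - Mq M MI MO p0 p1 p2 q0 q1 q2 m'‖ ≤
        max C D * ‖m - m'‖ := by
    intro m m' h h'
    rw [eA m h, eA m' h']
    exact (hC2 m h m' h').trans (mul_le_mul_of_nonneg_right (le_max_left _ _) (norm_nonneg _))
  have kB : ∀ m m' : ℂ, 1 ≤ ‖m‖ → 1 ≤ ‖m'‖ → ‖m‖ ≤ max R 1 → ‖m'‖ ≤ max R 1 →
      ‖Mq M MI MO p0 p1 p2 q0 q1 q2 m - Mq M MI MO p0 p1 p2 q0 q1 q2 m'‖ ≤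
        max C D * ‖m - m'‖ := by
    intro m m' h h' k k'
    rw [eB m h, eB m' h']
    exact (hD2 m ⟨h, k⟩ m' ⟨h', k'⟩).trans
      (mul_le_mul_of_nonneg_right (le_max_right _ _) (norm_nonneg _))
  have kC : ∀ m m' : ℂ, ‖m‖ ≤ 1 → 1 ≤ ‖m'‖ → ‖m'‖ ≤ max R 1 →
      ‖Mq M MI MO p0 p1 p2 q0 q1 q2 m - Mq M MI MO p0 p1 p2 q0 q1 q2 m'‖ ≤
        max C D * ‖m - m'‖ := by
    intro m m' h h' k'
    obtain ⟨p, hp1, he⟩ := exists_cross h h'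
    have h1 := kA m p h hp1.le
    have h2 := kB p m' hp1.ge h' (hp1.le.trans (le_max_right _ _)) k'
    have e : Mq M MI MO p0 p1 p2 q0 q1 q2 m - Mq M MI MO p0 p1 p2 q0 q1 q2 m' =
      (Mq M MI MO p0 p1 p2 q0 q1 q2 m - Mq M MI MO p0 p1 p2 q0 q1 q2 p) +
      (Mq M MI MO p0 p1 p2 q0 q1 q2 p - Mq M MI MO p0 p1 p2 q0 q1 q2 m') := by ring
    rw [e, ← he, mul_add]
    exact (norm_add_le _ _).trans (add_le_add h1 h2)
  refine ⟨max C D, h00, hle, fun m m' hm hm' => ?_⟩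
  rcases le_or_gt ‖m‖ 1 with h | h <;> rcases le_or_gt ‖m'‖ 1 with h' | h'
  · exact kA m m' h h'
  · exact kC m m' h h'.le (hm'.trans (le_max_left _ _))
  · rw [norm_sub_rev, norm_sub_rev m]
    exact kC m' m h' h.le (hm.trans (le_max_left _ _))
  · exact kB m m' h.le h'.le (hm.trans (le_max_left _ _)) (hm'.trans (le_max_left _ _))

/-- retraction to `|m + 3| ≤ 4` -/
noncomputable def p4 (m : ℂ) : ℂ := -3 + 4 * prj ((m + 3) / 4)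

theorem p4_mem (m : ℂ) : ‖p4 m + 3‖ ≤ 4 := by
  have e : p4 m + 3 = 4 * prj ((m + 3) / 4) := by unfold p4; ring
  rw [e, norm_mul, Complex.norm_ofNat]
  have := norm_prj_le ((m + 3) / 4)
  linarith

theorem p4_norm (m : ℂ) : ‖p4 m‖ ≤ 7 := by
  have h := p4_mem m
  have e : p4 m = (p4 m + 3) + (-3) := by ring
  rw [e]
  refine (norm_add_le _ _).trans ?_
  rw [norm_neg, Complex.norm_ofNat]
  linarith

theorem p4_of_le {m : ℂ} (h : ‖m + 3‖ ≤ 4) : p4 m = m := by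
  unfold p4
  rw [prj_of_le]
  · ring
  · rw [norm_div, Complex.norm_ofNat]
    linarith

theorem p4_lip (m m' : ℂ) : ‖p4 m - p4 m'‖ ≤ 2 * ‖m - m'‖ := by
  have e : p4 m - p4 m' = 4 * (prj ((m + 3) / 4) - prj ((m' + 3) / 4)) := by unfold p4; ring
  rw [e, norm_mul, Complex.norm_ofNat]
  have h := prj_lip ((m + 3) / 4) ((m' + 3) / 4)
  have e2 : (m + 3) / 4 - (m' + 3) / 4 = (m - m') / 4 := by ring
  rw [e2, norm_div, Complex.norm_ofNat] at h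
  linarith

theorem p4_conj (m : ℂ) : p4 (conj m) = conj (p4 m) := by
  have e4 : conj (4 : ℂ) = 4 := Complex.conj_ofNat 4
  have e3 : conj (3 : ℂ) = 3 := Complex.conj_ofNat 3
  unfold p4
  rw [map_add, map_mul, ← prj_conj, map_div₀, map_add, map_neg, e4, e3]

theorem p4_dist (m : ℂ) : ‖p4 m - m‖ = max 0 (‖m + 3‖ - 4) := by
  rcases le_or_gt ‖m + 3‖ 4 with h | h
  · rw [p4_of_le h, sub_self, norm_zero, max_eq_left (by linarith)]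
  · rw [max_eq_right (by linarith)]
    have hn : (0:ℝ) < ‖m + 3‖ := by linarith
    have h1 : ‖(m + 3) / 4‖ = ‖m + 3‖ / 4 := by rw [norm_div, Complex.norm_ofNat]
    have h2 : max 1 ‖(m + 3) / 4‖ = ‖m + 3‖ / 4 := by
      rw [h1, max_eq_right]
      linarith
    have e : p4 m - m = ((4 / ‖m + 3‖ - 1 : ℝ) : ℂ) * (m + 3) := by
      unfold p4 prj
      rw [h2]
      have : ((‖m + 3‖ : ℝ) : ℂ) ≠ 0 := ofReal_ne_zero.2 hn.ne'
      push_cast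
      field_simp
      ring
    rw [e, norm_mul, norm_real, Real.norm_eq_abs, abs_of_nonpos]
    · field_simp
      ring
    · rw [sub_nonpos, div_le_one hn]
      exact h.le

/-- **the global multiplier** -/
noncomputable def Mg (M : ℤ) (MI MO : List (ℕ × ℕ × ℤ)) (p0 p1 p2 q0 q1 q2 : ℝ) (m : ℂ) : ℂ :=
  Mq M MI MO p0 p1 p2 q0 q1 q2 (p4 m)

theorem Mg_conj (M : ℤ) (MI MO : List (ℕ × ℕ × ℤ)) (p0 p1 p2 q0 q1 q2 : ℝ) (m : ℂ) :
    Mg M MI MO p0 p1 p2 q0 q1 q2 (conj m) = conj (Mg M MI MO p0 p1 p2 q0 q1 q2 m) := by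
  unfold Mg
  rw [p4_conj, Mq_conj]

theorem Mg_eq (M : ℤ) (MI MO : List (ℕ × ℕ × ℤ)) (p0 p1 p2 q0 q1 q2 : ℝ) {m : ℂ}
    (h : ‖m + 3‖ ≤ 4) :
    Mg M MI MO p0 p1 p2 q0 q1 q2 m = Mq M MI MO p0 p1 p2 q0 q1 q2 m := by
  unfold Mg
  rw [p4_of_le h]

/-- bounded by the constant of the checker -/
theorem Mg_le (hp : InL p0 p1 p2) (hq : OutL a q0 q1 q2)
    {r r0 r1 r2 r' r0' r1' r2' : ℤ} (hr : ROk r r0 r1 r2 p0 p1 p2)
    (hr' : ROk r' r0' r1' r2' q0 q1 q2) {k n N k' n' N' : ℕ} {M Bn Bd : ℤ}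
    (hk : 0 < k) (hk' : 0 < k') (hM : 0 < M) (hBn : 0 ≤ Bn)
    (hBd : 0 < Bd) (h : mchk true k n N 1 r r0 r1 r2 M Bn Bd MI = true)
    (h' : mchk false k' n' N' (-1) r' r0' r1' r2' M Bn Bd MO = true) (m : ℂ) :
    ‖Mg M MI MO p0 p1 p2 q0 q1 q2 m‖ ≤ (Bn : ℝ) / Bd :=
  Mq_le hp hq hr hr' hk hk' hM hBn hBd h h' (p4_mem m)

/-- globally Lipschitz -/
theorem Mg_lip (hp : InL p0 p1 p2) (hq : OutL a q0 q1 q2) (hz : Zeq MI MO) (M : ℤ) :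
    ∃ C : ℝ, 0 ≤ C ∧ ∀ m m' : ℂ,
      ‖Mg M MI MO p0 p1 p2 q0 q1 q2 m - Mg M MI MO p0 p1 p2 q0 q1 q2 m'‖ ≤
        C * ‖m - m'‖ := by
  obtain ⟨C, h0, -, h2⟩ := Mq_lip hp hq hz M 7
  refine ⟨2 * C, by positivity, fun m m' => ?_⟩
  have h3 := h2 (p4 m) (p4 m') (p4_norm m) (p4_norm m')
  have h4 := mul_le_mul_of_nonneg_left (p4_lip m m') h0
  unfold Mg
  linarith

theorem Mg_cont (hp : InL p0 p1 p2) (hq : OutL a q0 q1 q2) (hz : Zeq MI MO) (M : ℤ) :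
    Continuous (Mg M MI MO p0 p1 p2 q0 q1 q2) := by
  obtain ⟨C, h0, h2⟩ := Mg_lip hp hq hz M
  exact (LipschitzWith.of_dist_le_mul (K := ⟨C, h0⟩) fun m m' => by
    rw [dist_eq_norm, dist_eq_norm]
    exact h2 m m').continuous

/-- outside `|m + 3| ≤ 4` -/
theorem Mg_near (hp : InL p0 p1 p2) (hq : OutL a q0 q1 q2) (hz : Zeq MI MO) (M : ℤ) (R : ℝ) :
    ∃ C : ℝ, 0 ≤ C ∧ ∀ m : ℂ, ‖m‖ ≤ R →
      ‖Mg M MI MO p0 p1 p2 q0 q1 q2 m - Mq M MI MO p0 p1 p2 q0 q1 q2 m‖ ≤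
        C * max 0 (‖m + 3‖ - 4) := by
  obtain ⟨C, h0, -, h2⟩ := Mq_lip hp hq hz M (max R 7)
  refine ⟨C, h0, fun m hm => ?_⟩
  rw [← p4_dist]
  exact h2 (p4 m) m ((p4_norm m).trans (le_max_right _ _)) (hm.trans (le_max_left _ _))

end glob

end Pool.Agent.Helper20.CK
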